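import Pool.Agent.R464.MG.Strat
import Pool.Agent.R961.MG.R1
import Pool.Agent.R125.Mono.Final

/-!
# MP_61ed4e_co, Q1: the answer is no

The normal-play monotonic sequence game on the rationals with `a = 25`, `d = 11` is won by the
second player.
-/

namespace Pool.Agent.Results.MP_61ed4e_co.SecondPlayerWins

/-- The play `L` contains a strictly increasing subsequence of length `a` or a strictly decreasing
subsequence of length `d`. -/
def Over (a d : ℕ) (L : List ℚ) : Prop :=
  (∃ s : List ℚ, s.Sublist L ∧ s.length = a ∧ s.Pairwise (· < ·)) ∨
    (∃ s : List ℚ, s.Sublist L ∧ s.length = d ∧ s.Pairwise (· > ·))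

/-- The first `n` moves of the play `x` (moves are numbered from `0`). -/
def pre (x : ℕ → ℚ) (n : ℕ) : List ℚ := (List.range n).map x

/-- The second player has a winning strategy in the normal-play game `(a, d, ℚ)`: a function `σ`
from finite sequences to rationals such that, whenever the second player (who makes the moves with
odd number) follows `σ` and all moves of the first player (even numbers) are legal, there is an odd
`n` such that the game ends exactly with move `n` and all moves of the second player up to this
one are legal. -/
def SecondWins (a d : ℕ) : Prop :=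
  ∃ σ : List ℚ → ℚ, ∀ x : ℕ → ℚ, (∀ n, Even n → x n ∉ pre x n) →
    (∀ n, Odd n → x n = σ (pre x n)) →
    ∃ n, Odd n ∧ Over a d (pre x (n + 1)) ∧ (∀ m ≤ n, ¬ Over a d (pre x m)) ∧
      ∀ m ≤ n, Odd m → x m ∉ pre x m

/-- **Negative answer to Q1**: for `(a, d) = (25, 11)` the second player wins. -/
theorem result : SecondWins 25 11 :=
  R464.MG.secondWins_of R961.MG.r1a R961.MG.r1c 25 11 (by norm_num) (by norm_num)
    (R464.MG.stmtG R125.Mono.stmtK R961.MG.r1a R961.MG.r1b R961.MG.r1c
      R464.MG.stmtR2a R464.MG.stmtR2b)

end Pool.Agent.Results.MP_61ed4e_co.SecondPlayerWins
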